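import Pool.Agent.BLP.StmtsE

namespace Pool.Agent.BLP.H74

theorem e_edr : EdrStmt := by
  intro c q q₂ m s hc hq hq2
  obtain ⟨a, ha⟩ : ∃ a, a = Real.sqrt q := ⟨_, rfl⟩
  obtain ⟨b, hb⟩ : ∃ b, b = Real.sqrt q₂ := ⟨_, rfl⟩
  have ha0 : 0 < a := by rw [ha]; exact Real.sqrt_pos.2 hq
  have hab : a < b := by rw [ha, hb]; exact Real.sqrt_lt_sqrt hq.le hq2
  have hb0 : 0 < b := ha0.trans hab
  have hbq : b ^ 2 = q₂ := by rw [hb]; exact Real.sq_sqrt (hq.trans hq2).le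
  obtain ⟨g, hg⟩ : ∃ g, g = (b - a) ^ 2 / (8 * a) := ⟨_, rfl⟩
  have hg0 : 0 < g := by
    rw [hg]
    have : 0 < b - a := sub_pos.2 hab
    positivity
  obtain ⟨y, hy⟩ : ∃ y, y = Real.sqrt |s| := ⟨_, rfl⟩
  have hy0 : 0 ≤ y := by rw [hy]; exact Real.sqrt_nonneg _
  have hy2 : y ^ 2 = |s| := by rw [hy]; exact Real.sq_sqrt (abs_nonneg s)
  obtain ⟨J₀, hJ₀⟩ := exists_nat_gt (32 * b ^ 2 / g ^ 2)
  obtain ⟨J, hJdef⟩ : ∃ J : ℕ, J = J₀ + 1 := ⟨_, rfl⟩
  have hJ1 : 1 ≤ J := by omega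
  have hJR : (1 : ℝ) ≤ J := by exact_mod_cast hJ1
  have hJpos : (0 : ℝ) < J := by linarith
  have hJ2 : 32 * b ^ 2 / g ^ 2 < J := by
    rw [hJdef]
    push_cast
    linarith
  obtain ⟨σ, hσ⟩ : ∃ σ, σ = Real.sqrt (2 / J) := ⟨_, rfl⟩
  have hσ0 : 0 ≤ σ := by rw [hσ]; exact Real.sqrt_nonneg _
  have hσ2 : σ ^ 2 = 2 / J := by rw [hσ]; exact Real.sq_sqrt (by positivity)
  have hbσ : b * σ ≤ g / 4 := by
    have h1 : (b * σ) ^ 2 ≤ (g / 4) ^ 2 := by
      rw [mul_pow, hσ2]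
      have h2 : 32 * b ^ 2 < J * g ^ 2 := by
        rwa [div_lt_iff₀ (by positivity)] at hJ2
      have h3 : b ^ 2 * (2 / J) = (32 * b ^ 2) / (16 * J) := by
        field_simp
        ring
      rw [h3, div_le_iff₀ (by positivity)]
      have h4 : (g / 4) ^ 2 * (16 * J) = J * g ^ 2 := by ring
      rw [h4]
      exact h2.le
    exact abs_le_of_sq_le_sq' h1 (by positivity) |>.2
  obtain ⟨k, hk⟩ : ∃ k : ℝ, k = |(m : ℝ)| := ⟨_, rfl⟩
  have hk0 : 0 ≤ k := by rw [hk]; exact abs_nonneg _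
  obtain ⟨δ, hδ⟩ : ∃ δ, δ = ((a + b) / 2) ^ 2 - a ^ 2 := ⟨_, rfl⟩
  have hδ0 : 0 < δ := by
    rw [hδ, sub_pos]
    exact pow_lt_pow_left₀ (by linarith) ha0.le two_ne_zero
  obtain ⟨K, hK⟩ : ∃ K, K = 2 * 2 * y + k * a / 2 := ⟨_, rfl⟩
  have hK0 : 0 ≤ K := by rw [hK]; positivity
  obtain ⟨M₀, hM₀⟩ := exists_nat_gt (k + J + a ^ 2 * k / δ + (2 * K / g) ^ 2 + 1)
  refine ⟨c * g / 16, J, M₀, by positivity, hJ1, ?_⟩
  intro M hM r w hr0 hr hw0 hw
  have hMR : k + J + a ^ 2 * k / δ + (2 * K / g) ^ 2 + 1 < M :=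
    lt_of_lt_of_le hM₀ (by exact_mod_cast hM)
  have e1 : 0 ≤ a ^ 2 * k / δ := by positivity
  have e2 : 0 ≤ (2 * K / g) ^ 2 := by positivity
  have hM1 : (1 : ℝ) < M := by linarith
  have hM2 : k + J < M := by linarith
  have hM3 : a ^ 2 * k < δ * M := by
    have : a ^ 2 * k / δ < M := by linarith
    rw [div_lt_iff₀ hδ0] at this
    linarith
  have hM4 : (2 * K / g) ^ 2 < M := by linarith
  obtain ⟨v, hv⟩ : ∃ v, v = Real.sqrt M := ⟨_, rfl⟩
  have hv0 : 0 ≤ v := by rw [hv]; exact Real.sqrt_nonneg _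
  have hv2 : v ^ 2 = M := by rw [hv]; exact Real.sq_sqrt (by linarith)
  have hv1 : 1 ≤ v := by
    rw [hv]
    exact Real.one_le_sqrt.2 hM1.le
  obtain ⟨u, hu⟩ : ∃ u, u = Real.sqrt r := ⟨_, rfl⟩
  have hu0 : 0 ≤ u := by rw [hu]; exact Real.sqrt_nonneg _
  have hu2 : u ^ 2 = r := by rw [hu]; exact Real.sq_sqrt hr0
  obtain ⟨z, hz⟩ : ∃ z, z = Real.sqrt w := ⟨_, rfl⟩
  have hz0 : 0 ≤ z := by rw [hz]; exact Real.sqrt_nonneg _
  have hz2 : z ^ 2 = w := by rw [hz]; exact Real.sq_sqrt hw0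
  have hmk : -(m : ℝ) ≤ k := by rw [hk]; exact neg_le_abs _
  have hmk2 : -k ≤ (m : ℝ) := by linarith
  have hrk : r ≤ M + k := by linarith
  have hwk : w ≤ 2 * M / J := by
    have h1 : ((M : ℝ) - m) / J + 1 = ((M : ℝ) - m + J) / J := by
      field_simp
    rw [h1] at hw
    refine hw.trans ?_
    exact div_le_div_of_nonneg_right (by linarith) hJpos.le
  have hwM : w ≤ 2 * M := by
    refine hwk.trans ?_
    rw [div_le_iff₀ hJpos]
    exact le_mul_of_one_le_right (by linarith) hJR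
  -- the bounds for the roots
  have hzσ : z ≤ σ * v := by
    have h1 : z ^ 2 ≤ (σ * v) ^ 2 := by
      rw [hz2, mul_pow, hσ2, hv2]
      have : 2 / (J : ℝ) * M = 2 * M / J := by ring
      rw [this]
      exact hwk
    exact (abs_le_of_sq_le_sq' h1 (by positivity)).2
  have hz3 : z ≤ 2 * v := by
    have h1 : z ^ 2 ≤ (2 * v) ^ 2 := by
      rw [hz2, mul_pow, hv2]
      linarith
    exact (abs_le_of_sq_le_sq' h1 (by positivity)).2
  have hu3 : u ≤ 2 * v := by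
    have h1 : u ^ 2 ≤ (2 * v) ^ 2 := by
      rw [hu2, mul_pow, hv2]
      linarith
    exact (abs_le_of_sq_le_sq' h1 (by positivity)).2
  have hau : a * u ≤ (a + b) / 2 * v := by
    have h1 : (a * u) ^ 2 ≤ ((a + b) / 2 * v) ^ 2 := by
      rw [mul_pow, hu2, mul_pow, hv2]
      have h2 : a ^ 2 * r ≤ a ^ 2 * (M + k) := mul_le_mul_of_nonneg_left hrk (by positivity)
      have h3 : ((a + b) / 2) ^ 2 = δ + a ^ 2 := by rw [hδ]; ring
      rw [h3]
      linarith
    exact (abs_le_of_sq_le_sq' h1 (by positivity)).2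
  -- the square root
  have hsq : Real.sqrt ((r + w) * (M * q₂ - s)) ≤ (u + z) * (b * v + y) := by
    rw [Real.sqrt_le_left (by positivity)]
    have h1 : r + w ≤ (u + z) ^ 2 := by
      rw [← hu2, ← hz2]
      have h4 : (u + z) ^ 2 = u ^ 2 + z ^ 2 + 2 * (u * z) := by ring
      have h5 := mul_nonneg hu0 hz0
      linarith
    have h2 : (M : ℝ) * q₂ - s ≤ (b * v + y) ^ 2 := by
      have h3 : (b * v + y) ^ 2 = b ^ 2 * v ^ 2 + 2 * (b * v * y) + y ^ 2 := by ring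
      rw [h3, hbq, hv2, hy2]
      have h4 : -s ≤ |s| := neg_le_abs s
      have h5 : 0 ≤ b * v * y := by positivity
      linarith
    rw [mul_pow]
    calc (r + w) * (M * q₂ - s) ≤ (r + w) * (b * v + y) ^ 2 :=
          mul_le_mul_of_nonneg_left h2 (by linarith)
      _ ≤ (u + z) ^ 2 * (b * v + y) ^ 2 := mul_le_mul_of_nonneg_right h1 (by positivity)
  -- the main term
  have hmain : b * u * v + g * M ≤ (r * a + M * q₂ / a) / 2 := by
    have h1 : (r * a + M * q₂ / a) / 2 - b * u * v = (b * v - a * u) ^ 2 / (2 * a) := by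
      rw [← hu2, ← hv2, ← hbq]
      field_simp
      ring
    have h2 : ((b - a) / 2 * v) ^ 2 ≤ (b * v - a * u) ^ 2 := by
      have h3 : (b - a) / 2 * v ≤ b * v - a * u := by linarith
      have h4 : 0 ≤ (b - a) / 2 * v := mul_nonneg (by linarith) hv0
      exact pow_le_pow_left₀ h4 h3 2
    have h5 : g * M = ((b - a) / 2 * v) ^ 2 / (2 * a) := by
      rw [hg, mul_pow, hv2]
      field_simp
      ring
    have h6 : ((b - a) / 2 * v) ^ 2 / (2 * a) ≤ (b * v - a * u) ^ 2 / (2 * a) :=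
      div_le_div_of_nonneg_right h2 (by positivity)
    linarith
  have hKv : K * v < g / 2 * M := by
    have h1 : 2 * K / g < v := by
      by_contra h2
      push Not at h2
      have h3 : v ^ 2 ≤ (2 * K / g) ^ 2 := pow_le_pow_left₀ hv0 h2 2
      rw [hv2] at h3
      linarith
    rw [div_lt_iff₀ hg0] at h1
    rw [← hv2]
    have h2 : 2 * K * v < v * g * v := mul_lt_mul_of_pos_right h1 (by linarith)
    have h3 : g / 2 * v ^ 2 = v * g * v / 2 := by ring
    rw [h3]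
    linarith
  have herr : b * z * v + u * y + z * y + k * a / 2 ≤ g / 4 * M + K * v := by
    have h1 : b * z * v ≤ g / 4 * M := by
      calc b * z * v ≤ b * (σ * v) * v := by gcongr
        _ = b * σ * v ^ 2 := by ring
        _ ≤ g / 4 * v ^ 2 := by gcongr
        _ = g / 4 * M := by rw [hv2]
    have h2 : u * y ≤ 2 * v * y := mul_le_mul_of_nonneg_right hu3 hy0
    have h3 : z * y ≤ 2 * v * y := mul_le_mul_of_nonneg_right hz3 hy0
    have h4 : k * a / 2 ≤ k * a / 2 * v := le_mul_of_one_le_right (by positivity) hv1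
    have h5 : K * v = 2 * v * y + 2 * v * y + k * a / 2 * v := by rw [hK]; ring
    linarith
  have hlast : (u + z) * (b * v + y) + g / 4 * M < (m * a + r * a + M * q₂ / a) / 2 := by
    have h1 : (u + z) * (b * v + y) = b * u * v + (b * z * v + u * y + z * y) := by ring
    have h2 : -(k * a) ≤ m * a := by
      have h4 := mul_le_mul_of_nonneg_right hmk2 ha0.le
      linarith
    have h3 : (m * a + r * a + M * q₂ / a) / 2 = m * a / 2 + (r * a + M * q₂ / a) / 2 := by ring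
    rw [h1, h3]
    linarith
  rw [← ha]
  calc c * Real.sqrt ((r + w) * (M * q₂ - s)) + 4 * (c * g / 16) * M
      ≤ c * ((u + z) * (b * v + y)) + 4 * (c * g / 16) * M := by gcongr
    _ = c * ((u + z) * (b * v + y) + g / 4 * M) := by ring
    _ < c * ((m * a + r * a + M * q₂ / a) / 2) := mul_lt_mul_of_pos_left hlast hc
    _ = c / 2 * ((m + r) * a + M * q₂ / a) := by ring

end Pool.Agent.BLP.H74
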